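import Pool.Agent.H34.TAM.Stmts2

/-!
Board `aut`, row TRM: matrices over a ring with a trace.
-/

set_option autoImplicit false

noncomputable section

open scoped TensorProduct

namespace Pool.AUT

open Pool.CGR Pool.CGS Pool.TAM

theorem trm_thm : TRMStmt := by
  intro m T _ _
  refine ⟨fun θ hθ A B => ?_, fun δ hδ A B => ?_⟩
  · simp only [Matrix.mul_apply, map_sum]
    rw [Finset.sum_comm]
    exact Finset.sum_congr rfl fun k _ => Finset.sum_congr rfl fun j _ => hθ _ _
  · ext i j
    simp only [Matrix.map_apply, Matrix.add_apply, Matrix.mul_apply, map_sum]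
    rw [← Finset.sum_add_distrib]
    exact Finset.sum_congr rfl fun k _ => hδ _ _

end Pool.AUT
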